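import Pool.Agent.Helper86.MV.Com
import Pool.Agent.Helper22.GK.M_TFO

/-!
# Project MV: module MGD (Möbius sums at good heights)
-/

set_option autoImplicit false

namespace Pool.Agent.Helper86.MV

open Pool.Agent.Helper23.MV
open Finset ArithmeticFunction MeasureTheory Set Filter
open Pool.Agent.Helper2.MR (ch)
open Pool.Agent.Helper23.GK (cmu)

theorem com_ev1 {ε : ℝ} (hε : 0 < ε) (K : ℝ) : ∀ᶠ X : ℝ in atTop, K ≤ X ^ ε :=
  (tendsto_rpow_atTop hε).eventually_ge_atTop K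

theorem com_ev2 {ε : ℝ} (hε : 0 < ε) (K : ℝ) :
    ∀ᶠ X : ℝ in atTop, K * (Real.log X + 1) ≤ X ^ ε := by
  have h1 : (fun X : ℝ => K * (Real.log X + 1)) =o[atTop] fun X : ℝ => X ^ ε := by
    refine Asymptotics.IsLittleO.const_mul_left ?_ K
    refine (isLittleO_log_rpow_atTop hε).add ?_
    rw [Asymptotics.isLittleO_const_left]
    right
    have := tendsto_rpow_atTop hε
    exact tendsto_norm_atTop_atTop.comp this
  filter_upwards [h1.bound (by norm_num : (0 : ℝ) < 1), eventually_ge_atTop 1] with X hX hX1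
  rw [one_mul, Real.norm_of_nonneg (by positivity : (0 : ℝ) ≤ X ^ ε)] at hX
  exact (le_abs_self _).trans hX

theorem com_ch_norm (t : ℝ) (n : ℕ) : ‖ch t n‖ = 1 := by
  rw [ch, Complex.norm_exp_ofReal_mul_I]

theorem mgd_norm (c : PCh) (τ : ℝ) (n : ℕ) : ‖cmu c.χ n * ch τ n‖ ≤ 1 := by
  rw [norm_mul, com_ch_norm, mul_one, cmu, norm_mul]
  have h2 := c.χ.norm_le_one (n : ZMod c.r)
  have h3 : ‖((moebius n : ℤ) : ℂ)‖ ≤ 1 := by
    rw [Complex.norm_intCast]
    exact_mod_cast ArithmeticFunction.abs_moebius_le_one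
  calc _ ≤ (1 : ℝ) * 1 := mul_le_mul h3 h2 (norm_nonneg _) zero_le_one
    _ = 1 := one_mul 1

/-- the domain -/
theorem com_open (c : PCh) (τ : ℝ) :
    IsOpen {z : ℂ | (c.χ = 1 → z + τ * Complex.I ≠ 1) ∧ c.L (z + τ * Complex.I) ≠ 0} ∧
    DifferentiableOn ℂ (fun z => (c.L (z + τ * Complex.I))⁻¹)
      {z : ℂ | (c.χ = 1 → z + τ * Complex.I ≠ 1) ∧ c.L (z + τ * Complex.I) ≠ 0} := by
  have hd : ∀ z : ℂ, (c.χ = 1 → z + τ * Complex.I ≠ 1) →
      DifferentiableAt ℂ (fun z => c.L (z + τ * Complex.I)) z := by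
    intro z hz
    have h1 : DifferentiableAt ℂ c.L (z + τ * Complex.I) := by
      refine DirichletCharacter.differentiableAt_LFunction c.χ _ ?_
      by_cases h : c.χ = 1
      · exact Or.inl (hz h)
      · exact Or.inr h
    exact h1.comp z (by fun_prop)
  constructor
  · rw [isOpen_iff_mem_nhds]
    rintro z ⟨hz1, hz2⟩
    have h1 : ∀ᶠ w in nhds z, (c.χ = 1 → w + τ * Complex.I ≠ 1) := by
      by_cases h : c.χ = 1
      · have : ContinuousAt (fun w : ℂ => w + τ * Complex.I) z := by fun_prop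
        filter_upwards [this.eventually_ne (hz1 h)] with w hw _ using hw
      · exact Eventually.of_forall fun w h' => absurd h' h
    have h2 : ∀ᶠ w in nhds z, c.L (w + τ * Complex.I) ≠ 0 :=
      (hd z hz1).continuousAt.eventually_ne hz2
    filter_upwards [h1, h2] with w hw1 hw2 using ⟨hw1, hw2⟩
  · rintro z ⟨hz1, hz2⟩
    exact ((hd z hz1).inv hz2).differentiableWithinAt

theorem mgd_series (c : PCh) (s : ℂ) (hs : 1 < s.re) : LSeries (cmu c.χ) s = (c.L s)⁻¹ := by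
  have h1 := DirichletCharacter.LSeries.mul_mu_eq_one c.χ hs
  rw [PCh.L, DirichletCharacter.LFunction_eq_LSeries c.χ hs, inv_eq_of_mul_eq_one_right h1]
  congr 1
  funext n
  rw [cmu, Pi.mul_apply, mul_comm]

/-- the main estimate with `log(x/n)` -/
theorem mgd_x (hCsh : StCsh) (hPid : StPid) {η X : ℝ} (hη : 0 < η) (hη1 : η ≤ 1 / 100)
    (hX : 2 ≤ X) (hX1 : 16 ≤ X ^ (η / 10)) (hX2 : 772 ≤ X ^ (109 * η / 1000))
    (hX3 : 144 * (Real.log X + 1) ≤ X ^ (η / 100)) (hX4 : 3 ≤ X ^ (1 / 5 : ℝ))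
    (c : PCh) (τ x : ℝ)
    (hI : ∀ s t : ℝ, 1 - η ≤ s → s ≤ 2 → |t - τ| ≤ X ^ (η / 10) / 4 - 2 →
      (c.χ = 1 → t ≠ 0) ∧ c.L (s + t * Complex.I) ≠ 0 ∧
      ‖(c.L (s + t * Complex.I))⁻¹‖ ≤ X ^ (η / 1000))
    (hx1 : X ^ (1 / 5 : ℝ) ≤ x) (hx2 : x ≤ 2 * X ^ 2) :
    ‖∑ n ∈ Finset.Ioc 0 ⌊x⌋₊, (cmu c.χ n * ch τ n) * ((Real.log (x / n) : ℝ) : ℂ)‖ ≤
      X ^ (-(9 * η / 100)) * x := by
  have hX0 : 0 < X := by linarith
  have hx3 : 3 ≤ x := hX4.trans hx1
  have hx0 : 0 < x := by linarith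
  have hlx : 1 ≤ Real.log x := by
    rw [Real.le_log_iff_exp_le hx0]
    have := Real.exp_one_lt_d9
    linarith
  have hlx2 : Real.log x ≤ 3 * Real.log X := by
    have h1 : Real.log x ≤ Real.log (X ^ 3) := by
      refine Real.log_le_log hx0 (hx2.trans ?_)
      nlinarith [sq_nonneg X]
    rw [Real.log_pow] at h1
    exact_mod_cast h1
  set Y : ℝ := X ^ (η / 10) / 4 - 2 with hY
  have hY1 : X ^ (η / 10) / 8 ≤ Y := by rw [hY]; linarith
  have hY2 : 1 ≤ Y := by linarith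
  have hY0 : 0 < Y := by linarith
  set σ : ℝ := 1 + 1 / Real.log x with hσ
  have hσ1 : 1 < σ := by rw [hσ]; have : 0 < 1 / Real.log x := by positivity
                         linarith
  have hσ2 : σ ≤ 2 := by
    rw [hσ]
    have : 1 / Real.log x ≤ 1 := by rw [div_le_one (by linarith)]; exact hlx
    linarith
  have hxσ : x ^ σ ≤ 3 * x := by
    rw [hσ, Real.rpow_add hx0, Real.rpow_one, Real.rpow_def_of_pos hx0 (1 / Real.log x),
      mul_one_div_cancel (by linarith), mul_comm]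
    have := Real.exp_one_lt_d9
    exact mul_le_mul_of_nonneg_right (by linarith) hx0.le
  have hf0 : cmu c.χ 0 * ch τ 0 = 0 := by simp [cmu]
  have hsum : Summable fun n : ℕ => ‖cmu c.χ n * ch τ n‖ * (n : ℝ) ^ (-σ) := by
    refine Summable.of_nonneg_of_le (fun n => by positivity) (fun n => ?_)
      (Real.summable_nat_rpow.2 (by linarith : -σ < -1))
    exact mul_le_of_le_one_left (by positivity) (mgd_norm c τ n)
  have key := com_gen hCsh hPid (∅ : Finset ℕ) (fun i hi => absurd hi (Finset.notMem_empty i))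
    (fun _ => 0) (fun _ => 0) (fun n => cmu c.χ n * ch τ n)
    (fun z => (c.L (z + τ * Complex.I))⁻¹)
    {z : ℂ | (c.χ = 1 → z + τ * Complex.I ≠ 1) ∧ c.L (z + τ * Complex.I) ≠ 0}
    (1 - η) σ Y (X ^ (η / 1000)) (σ / (σ - 1)) x (by linarith) (by linarith) hσ1 (by linarith)
    hY2 (by linarith) (by positivity) (com_open c τ).1 (com_open c τ).2
    (by
      intro z hz1 hz2 hz3
      have e : z + τ * Complex.I = (z.re : ℂ) + ((z.im + τ : ℝ) : ℂ) * Complex.I := by
        conv_lhs => rw [← Complex.re_add_im z]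
        push_cast
        ring
      have h := hI z.re (z.im + τ) hz1 (hz2.trans hσ2) (by rw [add_sub_cancel_right]; exact hz3)
      rw [← e] at h
      refine ⟨⟨fun hc h1 => ?_, h.2.1⟩, h.2.2⟩
      apply h.1 hc
      rw [e] at h1
      have := congrArg Complex.im h1
      simpa using this)
    hf0 hsum
    (by
      intro y
      rw [Finset.sum_empty, add_zero]
      have hre : 1 < ((σ : ℂ) + y * Complex.I + τ * Complex.I).re := by simpa using hσ1
      rw [com_series (cmu c.χ) τ _ (by simp; linarith), mgd_series c _ hre])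
    (by
      intro y
      have hre : 1 < ((σ : ℂ) + y * Complex.I + τ * Complex.I).re := by simpa using hσ1
      have h := (Pool.Agent.Helper22.GK.tfo_inv c.r c.χ _ hre).2
      have e : ((σ : ℂ) + y * Complex.I + τ * Complex.I).re = σ := by simp
      rw [e] at h
      exact h)
    (fun i hi => absurd hi (Finset.notMem_empty i))
  rw [Finset.sum_empty, sub_zero, Finset.sum_empty, zero_mul, add_zero] at key
  refine key.trans ?_
  have hM : σ / (σ - 1) = Real.log x + 1 := by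
    rw [hσ]
    field_simp
    ring
  rw [hM]
  have hxη : x ^ (1 - η) ≤ x * X ^ (-(η / 5)) := by
    rw [sub_eq_add_neg, Real.rpow_add hx0, Real.rpow_one]
    refine mul_le_mul_of_nonneg_left ?_ hx0.le
    have h1 : (X ^ (1 / 5 : ℝ)) ^ η ≤ x ^ η := Real.rpow_le_rpow (by positivity) hx1 hη.le
    rw [← Real.rpow_mul hX0.le] at h1
    rw [Real.rpow_neg hx0.le, Real.rpow_neg hX0.le]
    refine inv_anti₀ (by positivity) ?_
    rwa [show 1 / 5 * η = η / 5 by ring] at h1
  have hP : 0 < X ^ (η / 10) := by positivity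
  have hP5 : (X ^ (η / 10)) ^ 2 * X ^ (-(η / 5)) = 1 := by
    rw [← Real.rpow_natCast, ← Real.rpow_mul hX0.le, ← Real.rpow_add hX0]
    norm_num
    ring_nf
    exact Real.rpow_zero X
  have hP1 : X ^ (η / 10) * X ^ (-(η / 10)) = 1 := by
    rw [← Real.rpow_add hX0]
    norm_num
  have hYinv : 1 / Y ≤ 8 * X ^ (-(η / 10)) := by
    rw [div_le_iff₀ hY0]
    have h8 : 0 < X ^ (-(η / 10)) := by positivity
    have h9 := mul_le_mul_of_nonneg_left hY1 h8.le
    linarith
  have hY2inv : 1 / Y ^ 2 ≤ 64 * X ^ (-(η / 5)) := by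
    rw [div_le_iff₀ (by positivity)]
    have h3 : 0 < X ^ (-(η / 5)) := by positivity
    have h4 : (X ^ (η / 10)) ^ 2 / 64 ≤ Y ^ 2 := by
      have := pow_le_pow_left₀ (by positivity) hY1 2
      rw [div_pow] at this
      norm_num at this
      exact this
    have h9 := mul_le_mul_of_nonneg_left h4 h3.le
    linarith
  -- the two parts
  have hA : 2 * X ^ (η / 1000) * (x ^ (1 - η) + x ^ σ / Y ^ 2) ≤
      x * (386 * (X ^ (η / 1000) * X ^ (-(η / 5)))) := by
    have h5 : x ^ σ / Y ^ 2 ≤ 3 * x * (64 * X ^ (-(η / 5))) := by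
      rw [div_eq_mul_one_div]
      exact mul_le_mul hxσ hY2inv (by positivity) (by positivity)
    have h6 : 0 < X ^ (η / 1000) := by positivity
    calc 2 * X ^ (η / 1000) * (x ^ (1 - η) + x ^ σ / Y ^ 2)
        ≤ 2 * X ^ (η / 1000) * (x * X ^ (-(η / 5)) + 3 * x * (64 * X ^ (-(η / 5)))) := by
          gcongr
      _ = _ := by ring
  have hB : (Real.log x + 1) * x ^ σ / Y ≤ x * (24 * (3 * (Real.log X + 1)) * X ^ (-(η / 10))) := by
    rw [div_eq_mul_one_div]
    have h7 : (Real.log x + 1) * x ^ σ ≤ (3 * (Real.log X + 1)) * (3 * x) := by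
      have : 0 ≤ Real.log X := Real.log_nonneg (by linarith)
      refine mul_le_mul (by linarith) hxσ (by positivity) (by positivity)
    have : 0 ≤ Real.log X := Real.log_nonneg (by linarith)
    calc (Real.log x + 1) * x ^ σ * (1 / Y)
        ≤ (3 * (Real.log X + 1)) * (3 * x) * (8 * X ^ (-(η / 10))) :=
          mul_le_mul h7 hYinv (by positivity) (by positivity)
      _ = _ := by ring
  have hA2 : 386 * (X ^ (η / 1000) * X ^ (-(η / 5))) ≤ X ^ (-(9 * η / 100)) / 2 := by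
    have e1 : X ^ (-(9 * η / 100)) = X ^ (η / 1000) * X ^ (-(η / 5)) * X ^ (109 * η / 1000) := by
      rw [← Real.rpow_add hX0, ← Real.rpow_add hX0]
      congr 1
      ring
    rw [e1]
    have h8 : 0 < X ^ (η / 1000) * X ^ (-(η / 5)) := by positivity
    have h9 := mul_le_mul_of_nonneg_left hX2 h8.le
    linarith
  have hB2 : 24 * (3 * (Real.log X + 1)) * X ^ (-(η / 10)) ≤ X ^ (-(9 * η / 100)) / 2 := by
    have e1 : X ^ (-(9 * η / 100)) = X ^ (-(η / 10)) * X ^ (η / 100) := by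
      rw [← Real.rpow_add hX0]
      congr 1
      ring
    rw [e1]
    have h8 : 0 < X ^ (-(η / 10)) := by positivity
    have h9 := mul_le_mul_of_nonneg_left hX3 h8.le
    linarith
  calc 2 * X ^ (η / 1000) * (x ^ (1 - η) + x ^ σ / Y ^ 2) + (Real.log x + 1) * x ^ σ / Y
      ≤ x * (X ^ (-(9 * η / 100)) / 2) + x * (X ^ (-(9 * η / 100)) / 2) :=
        add_le_add (hA.trans (mul_le_mul_of_nonneg_left hA2 hx0.le))
          (hB.trans (mul_le_mul_of_nonneg_left hB2 hx0.le))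
    _ = _ := by ring

theorem hMgd (hUn2 : StUn2) (hCsh : StCsh) (hPid : StPid) (hIn2 : StIn2) : StMgd := by
  obtain ⟨η₁, h1, h2, H⟩ := hIn2
  refine ⟨η₁, h1, h2, fun η hη hη1 => ?_⟩
  have hη2 : η ≤ 1 / 100 := hη1.trans h2
  obtain ⟨X1, hX1, H1⟩ := H η hη hη1
  have hev : ∀ᶠ X : ℝ in atTop, 16 ≤ X ^ (η / 10) ∧ 772 ≤ X ^ (109 * η / 1000) ∧
      144 * (Real.log X + 1) ≤ X ^ (η / 100) ∧ 3 ≤ X ^ (1 / 5 : ℝ) ∧ 12 ≤ X ^ (η / 200) ∧
      2 ≤ X ^ (19 / 100 : ℝ) := by
    filter_upwards [com_ev1 (by positivity : 0 < η / 10) 16,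
      com_ev1 (by positivity : 0 < 109 * η / 1000) 772, com_ev2 (by positivity : 0 < η / 100) 144,
      com_ev1 (by norm_num : (0 : ℝ) < 1 / 5) 3, com_ev1 (by positivity : 0 < η / 200) 12,
      com_ev1 (by norm_num : (0 : ℝ) < 19 / 100) 2] with X a b c d e f using ⟨a, b, c, d, e, f⟩
  obtain ⟨X2, hX2⟩ := eventually_atTop.1 hev
  refine ⟨max X1 (max X2 2), hX1.trans (le_max_left _ _), ?_⟩
  intro X c τ N hX hcr hτ hc1 hz hN1 hN2
  have hXX1 : X1 ≤ X := (le_max_left _ _).trans hX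
  have hXX2 : X2 ≤ X := (le_max_left _ _).trans ((le_max_right _ _).trans hX)
  have hX2' : 2 ≤ X := (le_max_right _ _).trans ((le_max_right _ _).trans hX)
  obtain ⟨a1, a2, a3, a4, a5, a6⟩ := hX2 X hXX2
  have hX0 : 0 < X := by linarith
  have hXη : X ^ (η / 10) ≤ X := by
    calc X ^ (η / 10) ≤ X ^ (1 : ℝ) := Real.rpow_le_rpow_of_exponent_le (by linarith) (by linarith)
      _ = X := Real.rpow_one X
  have hI : ∀ s t : ℝ, 1 - η ≤ s → s ≤ 2 → |t - τ| ≤ X ^ (η / 10) / 4 - 2 →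
      (c.χ = 1 → t ≠ 0) ∧ c.L (s + t * Complex.I) ≠ 0 ∧
      ‖(c.L (s + t * Complex.I))⁻¹‖ ≤ X ^ (η / 1000) := by
    intro s t hs1 hs2 ht
    have ht1 : |t| ≤ |t - τ| + |τ| := by
      have := abs_add_le (t - τ) τ
      simpa using this
    have hτ1 : |τ| ≤ |t - τ| + |t| := by
      have := abs_add_le (τ - t) t
      rw [abs_sub_comm τ t] at this
      simpa using this
    have hh : c.χ = 1 → 1 ≤ |t| := fun hc => by
      have := hc1 hc
      linarith
    refine ⟨fun hc h0 => ?_, ?_⟩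
    · have := hh hc
      rw [h0, abs_zero] at this
      linarith
    · refine H1 X c s t hXX1 hcr (by linarith) hh ?_ hs1 hs2
      intro ρ hρ1 hρ2
      have h3 := hz ρ hρ1 hρ2
      have h4 : |ρ.im - τ| ≤ |ρ.im - t| + |t - τ| := by
        have := abs_add_le (ρ.im - t) (t - τ)
        simpa using this
      linarith
  have hN0 : (0 : ℝ) < N := lt_of_lt_of_le (by positivity) hN1
  have hN1' : 1 ≤ N := by exact_mod_cast hN0
  have hun := hUn2 (fun n => cmu c.χ n * ch τ n) N (X ^ (-(9 * η / 100))) hN1' (by positivity)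
    (by
      rw [Real.rpow_neg hX0.le]
      refine inv_le_one_of_one_le₀ ?_
      exact Real.one_le_rpow (by linarith) (by positivity))
    (mgd_norm c τ)
    (by
      intro x hx1 hx2
      refine mgd_x hCsh hPid hη hη2 hX2' a1 a2 a3 a4 c τ x hI (hN1.trans hx1) ?_
      linarith)
  refine hun.trans ?_
  have hsq : √(X ^ (-(9 * η / 100))) = X ^ (-(9 * η / 200)) := by
    rw [Real.sqrt_eq_rpow, ← Real.rpow_mul hX0.le]
    congr 1
    ring
  rw [hsq]
  have e1 : X ^ (-(η / 25)) = X ^ (-(9 * η / 200)) * X ^ (η / 200) := by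
    rw [← Real.rpow_add hX0]
    congr 1
    ring
  have h5 : 6 * (N : ℝ) * X ^ (-(9 * η / 200)) ≤ N * X ^ (-(η / 25)) / 2 := by
    rw [e1]
    have : 0 < (N : ℝ) * X ^ (-(9 * η / 200)) := by positivity
    nlinarith
  have h6 : 1 ≤ N * X ^ (-(η / 25)) / 2 := by
    have h7 : X ^ (19 / 100 : ℝ) ≤ N * X ^ (-(η / 25)) := by
      calc X ^ (19 / 100 : ℝ) ≤ X ^ (1 / 5 - η / 25) :=
            Real.rpow_le_rpow_of_exponent_le (by linarith) (by linarith)
        _ = X ^ (1 / 5 : ℝ) * X ^ (-(η / 25)) := by rw [← Real.rpow_add hX0]; rfl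
        _ ≤ _ := by gcongr
    linarith
  linarith

end Pool.Agent.Helper86.MV
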