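import Pool.Agent.Helper86.MV.M_MGD

/-!
# Project MV: module PS1 (explicit formula with the weight `log(x/n)`)
-/

set_option autoImplicit false

namespace Pool.Agent.Helper86.MV

open Pool.Agent.Helper23.MV
open Finset ArithmeticFunction MeasureTheory Set Filter
open Pool.Agent.Helper2.MR (ch)

theorem ps1_vm : ∃ C : ℝ, 0 < C ∧ ∀ σ : ℝ, 1 < σ → σ ≤ 2 →
    Summable (fun n : ℕ => Λ n * (n : ℝ) ^ (-σ)) ∧
    ∑' n : ℕ, Λ n * (n : ℝ) ^ (-σ) ≤ 1 / (σ - 1) + C := by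
  obtain ⟨C, hC, h⟩ := Pool.Agent.Helper22.GK.tfo_two
  refine ⟨C, hC, fun σ h1 h2 => ?_⟩
  have hr : 1 < ((σ : ℝ) : ℂ).re := by simpa using h1
  have h3 := Pool.Agent.Helper22.GK.tfo_re (1 : DirichletCharacter ℂ 1) hr
  have e : ∀ n : ℕ, (LSeries.term ((fun n : ℕ => (1 : DirichletCharacter ℂ 1) n) *
      fun n : ℕ => ((Λ n : ℝ) : ℂ)) σ n).re = Λ n * (n : ℝ) ^ (-σ) := by
    intro n
    rcases eq_or_ne n 0 with rfl | hn
    · simp
    rw [Pool.Agent.Helper22.GK.tfo_term0 _ σ hn,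
      MulChar.one_apply (isUnit_of_subsingleton _), mul_one, Complex.ofReal_re]
  simp_rw [e] at h3
  refine ⟨h3.2, ?_⟩
  rw [← h3.1]
  exact h 1 σ h1 h2

theorem ps1_norm (c : PCh) (t : ℝ) (n : ℕ) :
    ‖((Λ n : ℝ) : ℂ) * c.ev n * ch t n‖ ≤ Λ n := by
  rw [norm_mul, com_ch_norm, mul_one, norm_mul, Complex.norm_real,
    Real.norm_of_nonneg vonMangoldt_nonneg]
  exact mul_le_of_le_one_right vonMangoldt_nonneg (c.χ.norm_le_one _)

theorem ps1_series (c : PCh) (s : ℂ) (hs : 1 < s.re) :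
    LSeries (fun n : ℕ => ((Λ n : ℝ) : ℂ) * c.ev n) s = -(deriv c.L s / c.L s) := by
  have h := Pool.Agent.Helper22.GK.tfo_D c.χ hs
  rw [show c.L = DirichletCharacter.LFunction c.χ from rfl, h, LSeries]
  congr 1
  funext n
  congr 1
  funext k
  rw [Pi.mul_apply, mul_comm]
  rfl

open Classical in
theorem ps1_x (hCsh : StCsh) (hPid : StPid) (hPkr : StPkr) {C : ℝ} (hC0 : 0 < C)
    (hC : ∀ σ : ℝ, 1 < σ → σ ≤ 2 → Summable (fun n : ℕ => Λ n * (n : ℝ) ^ (-σ)) ∧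
      ∑' n : ℕ, Λ n * (n : ℝ) ^ (-σ) ≤ 1 / (σ - 1) + C)
    {η X : ℝ} (hη : 0 < η) (hη1 : η ≤ 1 / 100) (hX : 2 ≤ X)
    (hX1 : 24 ≤ X ^ (43 * η / 200)) (hX2 : 27 * (2 + C) * (Real.log X + 1) ≤ X ^ (η / 50))
    (hX3 : 24 * (Real.log X + 1) ≤ X ^ (2 / 5 : ℝ)) (hX4 : 2 / η ≤ Real.log X)
    (c : PCh) (t x : ℝ) (g : ℂ → ℂ) (U : Set ℂ) (hU : IsOpen U) (hd : DifferentiableOn ℂ g U)
    (hg : ∀ z : ℂ, 1 - η ≤ z.re → z.re ≤ 1 + η → |z.im| ≤ X ^ (3 * η / 10) →
      z ∈ U ∧ ‖g z‖ ≤ X ^ (η / 40))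
    (R : Finset ℂ)
    (hg2 : ∀ z : ℂ, 1 < z.re → g z = -(deriv c.L (z + t * Complex.I) / c.L (z + t * Complex.I)) +
      ∑ ρ ∈ R, (mz c ρ : ℂ) / (z + t * Complex.I - ρ) -
      (if c.χ = 1 then 1 / (z + t * Complex.I - 1) else 0))
    (hR : ∑ ρ ∈ R, (mz c ρ : ℝ) ≤ X ^ (η / 50))
    (hR1 : ∀ ρ ∈ R, 1 / 2 ≤ ρ.re ∧ ρ.re ≤ 1) (hx1 : √X ≤ x) (hx2 : x ≤ X ^ 2) :
    ‖Ps c t x - (if c.χ = 1 then (x : ℂ) ^ (1 - t * Complex.I) / (1 - t * Complex.I) ^ 2 else 0) +
      ∑ ρ ∈ R, (mz c ρ : ℂ) * (x : ℂ) ^ (ρ - t * Complex.I) / (ρ - t * Complex.I) ^ 2‖ ≤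
    x * X ^ (-(13 * η / 50)) := by
  have hX0 : 0 < X := by linarith
  have hlX : 200 ≤ Real.log X := by
    refine le_trans ?_ hX4
    rw [le_div_iff₀ hη]
    linarith
  have hsX : 0 < √X := Real.sqrt_pos.2 hX0
  have hx0 : 0 < x := hsX.trans_le hx1
  have hlx1 : Real.log X / 2 ≤ Real.log x := by
    rw [← Real.log_sqrt hX0.le]
    exact Real.log_le_log hsX hx1
  have hlx2 : Real.log x ≤ 2 * Real.log X := by
    have h1 := Real.log_le_log hx0 hx2
    rw [Real.log_pow] at h1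
    exact_mod_cast h1
  have hlx : 0 < Real.log x := by linarith
  have hx1' : 1 ≤ x := by
    by_contra hcon
    have := Real.log_nonpos hx0.le (not_le.1 hcon).le
    linarith
  have hinv : 1 / Real.log x ≤ η := by
    rw [div_le_iff₀ hlx]
    have : 2 / η * η = 2 := by field_simp
    nlinarith
  set Y : ℝ := X ^ (3 * η / 10) with hY
  have hY1 : 1 ≤ Y := Real.one_le_rpow (by linarith) (by positivity)
  have hY0 : 0 < Y := by linarith
  set σ : ℝ := 1 + 1 / Real.log x with hσ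
  have hσ1 : 1 < σ := by
    rw [hσ]
    have : 0 < 1 / Real.log x := by positivity
    linarith
  have hσ2 : σ ≤ 1 + η := by linarith
  have hσi : 1 / (σ - 1) = Real.log x := by
    rw [hσ]
    field_simp
    ring
  have hxσ : x ^ σ ≤ 3 * x := by
    rw [hσ, Real.rpow_add hx0, Real.rpow_one, Real.rpow_def_of_pos hx0 (1 / Real.log x),
      mul_one_div_cancel (by linarith), mul_comm]
    have := Real.exp_one_lt_d9
    exact mul_le_mul_of_nonneg_right (by linarith) hx0.le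
  obtain ⟨hCs, hCb⟩ := hC σ hσ1 (by linarith)
  rw [hσi] at hCb
  set f : ℕ → ℂ := fun n => (((Λ n : ℝ) : ℂ) * c.ev n) * ch t n with hf
  have hf0 : f 0 = 0 := by simp [hf]
  have hfn : ∀ n : ℕ, ‖f n‖ * (n : ℝ) ^ (-σ) ≤ Λ n * (n : ℝ) ^ (-σ) := fun n =>
    mul_le_mul_of_nonneg_right (ps1_norm c t n) (by positivity)
  have hsum : Summable fun n : ℕ => ‖f n‖ * (n : ℝ) ^ (-σ) :=
    Summable.of_nonneg_of_le (fun n => by positivity) hfn hCs
  -- the data of `com_gen`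
  let P : Finset (Option ℂ) := insertNone R
  let m : Option ℂ → ℂ := fun o => match o with
    | none => if c.χ = 1 then 1 else 0
    | some ρ => -(mz c ρ : ℂ)
  let a : Option ℂ → ℂ := fun o => match o with
    | none => 1 - t * Complex.I
    | some ρ => ρ - t * Complex.I
  have hP : ∀ F : Option ℂ → ℂ, ∑ i ∈ P, F i = F none + ∑ ρ ∈ R, F (some ρ) := fun F =>
    Finset.sum_insertNone F R
  have hPr : ∀ F : Option ℂ → ℝ, ∑ i ∈ P, F i = F none + ∑ ρ ∈ R, F (some ρ) := fun F =>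
    Finset.sum_insertNone F R
  have hser : ∀ y : ℝ, ∑' n : ℕ, f n * (n : ℂ) ^ (-(σ + y * Complex.I : ℂ)) =
      -(deriv c.L (σ + y * Complex.I + t * Complex.I) / c.L (σ + y * Complex.I + t * Complex.I)) := by
    intro y
    have hre : 1 < ((σ : ℂ) + y * Complex.I + t * Complex.I).re := by simpa using hσ1
    rw [← ps1_series c _ hre, ← com_series _ t _ (by simp; linarith)]
  have hF : ∀ y : ℝ, ∑' n : ℕ, f n * (n : ℂ) ^ (-(σ + y * Complex.I : ℂ)) =
      g (σ + y * Complex.I) + ∑ i ∈ P, m i / ((σ + y * Complex.I : ℂ) - a i) := by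
    intro y
    have hre : 1 < ((σ : ℂ) + y * Complex.I).re := by simpa using hσ1
    rw [hser y, hg2 _ hre, hP]
    simp only [m, a]
    have e1 : ∑ ρ ∈ R, -(mz c ρ : ℂ) / ((σ : ℂ) + y * Complex.I - (ρ - t * Complex.I)) =
        -∑ ρ ∈ R, (mz c ρ : ℂ) / ((σ : ℂ) + y * Complex.I + t * Complex.I - ρ) := by
      rw [← Finset.sum_neg_distrib]
      refine Finset.sum_congr rfl fun ρ _ => ?_
      rw [neg_div]
      congr 2
      ring
    rw [e1]
    have e2 : (σ : ℂ) + y * Complex.I - (1 - t * Complex.I) =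
        (σ : ℂ) + y * Complex.I + t * Complex.I - 1 := by ring
    rw [e2]
    split_ifs <;> ring
  have hM : ∀ y : ℝ, ‖g (σ + y * Complex.I)‖ ≤
      3 * X ^ (η / 50) * (Real.log x + C) := by
    intro y
    have hre : 1 < ((σ : ℂ) + y * Complex.I).re := by simpa using hσ1
    have h50 : 1 ≤ X ^ (η / 50) := Real.one_le_rpow (by linarith) (by positivity)
    have hn : ∀ w : ℂ, w.re ≤ 1 → 1 / ‖(σ : ℂ) + y * Complex.I + t * Complex.I - w‖ ≤
        Real.log x := by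
      intro w hw
      rw [← hσi]
      refine one_div_le_one_div_of_le (by linarith) ?_
      refine le_trans ?_ (Complex.abs_re_le_norm _)
      refine le_trans ?_ (le_abs_self _)
      simp
      linarith
    rw [hg2 _ hre, ← hser y]
    have h1 : ‖∑' n : ℕ, f n * (n : ℂ) ^ (-(σ + y * Complex.I : ℂ))‖ ≤ Real.log x + C := by
      have hle : ∀ n : ℕ, ‖f n * (n : ℂ) ^ (-(σ + y * Complex.I : ℂ))‖ ≤
          Λ n * (n : ℝ) ^ (-σ) := by
        intro n
        rcases Nat.eq_zero_or_pos n with hn | hn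
        · subst hn
          simp [hf0]
        · rw [norm_mul, Complex.norm_natCast_cpow_of_pos hn]
          have := hfn n
          simpa using this
      exact (tsum_of_norm_bounded hCs.hasSum hle).trans hCb
    have h2 : ‖∑ ρ ∈ R, (mz c ρ : ℂ) / ((σ : ℂ) + y * Complex.I + t * Complex.I - ρ)‖ ≤
        X ^ (η / 50) * Real.log x := by
      refine (norm_sum_le _ _).trans ?_
      calc ∑ ρ ∈ R, ‖(mz c ρ : ℂ) / ((σ : ℂ) + y * Complex.I + t * Complex.I - ρ)‖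
          ≤ ∑ ρ ∈ R, (mz c ρ : ℝ) * Real.log x := by
            refine Finset.sum_le_sum fun ρ hρ => ?_
            rw [norm_div, div_eq_mul_one_div, Complex.norm_natCast]
            exact mul_le_mul_of_nonneg_left (hn ρ (hR1 ρ hρ).2) (Nat.cast_nonneg _)
        _ ≤ _ := by
            rw [← Finset.sum_mul]
            exact mul_le_mul_of_nonneg_right hR hlx.le
    have h3 : ‖(if c.χ = 1 then 1 / ((σ : ℂ) + y * Complex.I + t * Complex.I - 1) else 0)‖ ≤
        Real.log x := by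
      split_ifs
      · rw [norm_div, norm_one]
        exact hn 1 (by simp)
      · rw [norm_zero]
        exact hlx.le
    refine (norm_sub_le _ _).trans ?_
    refine (add_le_add ((norm_add_le _ _).trans (add_le_add h1 h2)) h3).trans ?_
    have h4 : 0 ≤ Real.log x + C := by linarith
    nlinarith
  have ha : ∀ i ∈ P, 1 / 2 ≤ (a i).re ∧ (a i).re ≤ 1 := by
    intro i hi
    rcases i with _ | ρ
    · simp only [a]
      constructor <;> simp <;> norm_num
    · have hρ : ρ ∈ R := by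
        have := hi
        simpa [P] using this
      simp only [a]
      have := hR1 ρ hρ
      simpa using this
  have key := com_gen hCsh hPid P (fun _ _ => hPkr) m a f g U (1 - η) σ Y (X ^ (η / 40))
    (3 * X ^ (η / 50) * (Real.log x + C)) x (by linarith) (by linarith) hσ1 (by linarith) hY1 hx1'
    (by positivity) hU hd (fun z h1 h2 h3 => hg z h1 (h2.trans hσ2) h3) hf0 hsum hF hM ha
  have hfin : (∑ n ∈ Finset.Ioc 0 ⌊x⌋₊, f n * ((Real.log (x / n) : ℝ) : ℂ)) -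
      ∑ i ∈ P, m i * (x : ℂ) ^ (a i) / (a i) ^ 2 =
      Ps c t x - (if c.χ = 1 then (x : ℂ) ^ (1 - t * Complex.I) / (1 - t * Complex.I) ^ 2 else 0) +
      ∑ ρ ∈ R, (mz c ρ : ℂ) * (x : ℂ) ^ (ρ - t * Complex.I) / (ρ - t * Complex.I) ^ 2 := by
    rw [hP]
    simp only [m, a]
    have e1 : ∑ ρ ∈ R, -(mz c ρ : ℂ) * (x : ℂ) ^ (ρ - t * Complex.I) / (ρ - t * Complex.I) ^ 2 =
        -∑ ρ ∈ R, (mz c ρ : ℂ) * (x : ℂ) ^ (ρ - t * Complex.I) / (ρ - t * Complex.I) ^ 2 := by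
      rw [← Finset.sum_neg_distrib]
      refine Finset.sum_congr rfl fun ρ _ => ?_
      ring
    rw [e1, Ps]
    simp only [hf]
    split_ifs <;> ring
  rw [hfin] at key
  refine key.trans ?_
  have hms : ∑ i ∈ P, ‖m i‖ ≤ 2 * X ^ (η / 50) := by
    have h50 : 1 ≤ X ^ (η / 50) := Real.one_le_rpow (by linarith) (by positivity)
    rw [hPr]
    simp only [m]
    have h1 : ‖(if c.χ = 1 then (1 : ℂ) else 0)‖ ≤ 1 := by split_ifs <;> simp
    have h2 : ∑ ρ ∈ R, ‖-(mz c ρ : ℂ)‖ ≤ X ^ (η / 50) := by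
      simpa using hR
    linarith
  -- final estimates
  have hxη : x ^ (1 - η) ≤ x * X ^ (-(η / 2)) := by
    rw [sub_eq_add_neg, Real.rpow_add hx0, Real.rpow_one]
    refine mul_le_mul_of_nonneg_left ?_ hx0.le
    have h1 : (√X) ^ η ≤ x ^ η := Real.rpow_le_rpow (by positivity) hx1 hη.le
    rw [Real.sqrt_eq_rpow, ← Real.rpow_mul hX0.le] at h1
    rw [Real.rpow_neg hx0.le, Real.rpow_neg hX0.le]
    refine inv_anti₀ (by positivity) ?_
    rwa [show 1 / 2 * η = η / 2 by ring] at h1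
  have hYi : 1 / Y = X ^ (-(3 * η / 10)) := by
    rw [hY, Real.rpow_neg hX0.le, one_div]
  have hYi2 : x ^ σ / Y ^ 2 ≤ 3 * x * X ^ (-(η / 2)) := by
    rw [div_eq_mul_one_div]
    refine mul_le_mul hxσ ?_ (by positivity) (by positivity)
    rw [hY, ← Real.rpow_natCast, ← Real.rpow_mul hX0.le, one_div, ← Real.rpow_neg hX0.le]
    refine Real.rpow_le_rpow_of_exponent_le (by linarith) ?_
    push_cast
    linarith
  set E : ℝ := X ^ (-(13 * η / 50)) with hE
  have hE0 : 0 < E := by positivity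
  have hA : 2 * X ^ (η / 40) * (x ^ (1 - η) + x ^ σ / Y ^ 2) ≤ x * (E / 3) := by
    have e1 : E = X ^ (η / 40) * X ^ (-(η / 2)) * X ^ (43 * η / 200) := by
      rw [hE, ← Real.rpow_add hX0, ← Real.rpow_add hX0]
      congr 1
      ring
    have h8 : 0 < X ^ (η / 40) * X ^ (-(η / 2)) := by positivity
    have h9 := mul_le_mul_of_nonneg_left hX1 h8.le
    rw [← e1] at h9
    calc 2 * X ^ (η / 40) * (x ^ (1 - η) + x ^ σ / Y ^ 2)
        ≤ 2 * X ^ (η / 40) * (x * X ^ (-(η / 2)) + 3 * x * X ^ (-(η / 2))) := by gcongr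
      _ = x * (X ^ (η / 40) * X ^ (-(η / 2)) * 24 / 3) := by ring
      _ ≤ x * (E / 3) := by
          refine mul_le_mul_of_nonneg_left ?_ hx0.le
          linarith
  have hB : 3 * X ^ (η / 50) * (Real.log x + C) * x ^ σ / Y ≤ x * (E / 3) := by
    have e1 : E = X ^ (η / 50) * X ^ (-(3 * η / 10)) * X ^ (η / 50) := by
      rw [hE, ← Real.rpow_add hX0, ← Real.rpow_add hX0]
      congr 1
      ring
    have h8 : 0 < X ^ (η / 50) * X ^ (-(3 * η / 10)) := by positivity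
    have h9 := mul_le_mul_of_nonneg_left hX2 h8.le
    rw [← e1] at h9
    have h10 : Real.log x + C ≤ (2 + C) * (Real.log X + 1) := by nlinarith
    rw [div_eq_mul_one_div, hYi]
    calc 3 * X ^ (η / 50) * (Real.log x + C) * x ^ σ * X ^ (-(3 * η / 10))
        ≤ 3 * X ^ (η / 50) * ((2 + C) * (Real.log X + 1)) * (3 * x) * X ^ (-(3 * η / 10)) := by
          gcongr
      _ = x * (X ^ (η / 50) * X ^ (-(3 * η / 10)) * (27 * (2 + C) * (Real.log X + 1)) / 3) := by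
          ring
      _ ≤ x * (E / 3) := by
          refine mul_le_mul_of_nonneg_left ?_ hx0.le
          linarith
  have hD : (∑ i ∈ P, ‖m i‖) * (2 * Real.log x + 4) ≤ x * (E / 3) := by
    have e1 : X ^ (2 / 5 : ℝ) * X ^ (η / 50) ≤ √X * E := by
      rw [hE, Real.sqrt_eq_rpow, ← Real.rpow_add hX0, ← Real.rpow_add hX0]
      refine Real.rpow_le_rpow_of_exponent_le (by linarith) ?_
      linarith
    have h8 : 0 < X ^ (η / 50) := by positivity
    have h9 := mul_le_mul_of_nonneg_right hX3 h8.le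
    have h10 : √X * E ≤ x * E := mul_le_mul_of_nonneg_right hx1 hE0.le
    calc (∑ i ∈ P, ‖m i‖) * (2 * Real.log x + 4)
        ≤ (2 * X ^ (η / 50)) * (4 * (Real.log X + 1)) := by
          refine mul_le_mul hms (by linarith) (by positivity) (by positivity)
      _ = 24 * (Real.log X + 1) * X ^ (η / 50) / 3 := by ring
      _ ≤ _ := by linarith
  calc 2 * X ^ (η / 40) * (x ^ (1 - η) + x ^ σ / Y ^ 2) +
      3 * X ^ (η / 50) * (Real.log x + C) * x ^ σ / Y + (∑ i ∈ P, ‖m i‖) * (2 * Real.log x + 4)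
      ≤ x * (E / 3) + x * (E / 3) + x * (E / 3) := add_le_add (add_le_add hA hB) hD
    _ = x * E := by ring

open Classical in
theorem hPs1 (hFin : StFin) (hCsh : StCsh) (hPid : StPid) (hPkr : StPkr) (hNum : StNum)
    (hGrd : StGrd) : StPs1 := by
  obtain ⟨C, hC0, hC⟩ := ps1_vm
  obtain ⟨a1, a2, a3, HN⟩ := hNum
  obtain ⟨b1, b2, b3, HG⟩ := hGrd
  refine ⟨min a1 b1, lt_min a2 b2, (min_le_left _ _).trans a3, fun η hη hη1 => ?_⟩
  have hηa : η ≤ a1 := hη1.trans (min_le_left _ _)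
  have hηb : η ≤ b1 := hη1.trans (min_le_right _ _)
  have hη2 : η ≤ 1 / 100 := hηa.trans a3
  obtain ⟨X1, hX1, H1⟩ := HN η hη hηa
  obtain ⟨X2, hX2, H2⟩ := HG η hη hηb
  have hev : ∀ᶠ X : ℝ in atTop, 24 ≤ X ^ (43 * η / 200) ∧
      27 * (2 + C) * (Real.log X + 1) ≤ X ^ (η / 50) ∧
      24 * (Real.log X + 1) ≤ X ^ (2 / 5 : ℝ) ∧ 2 / η ≤ Real.log X := by
    filter_upwards [com_ev1 (by positivity : 0 < 43 * η / 200) 24,
      com_ev2 (by positivity : 0 < η / 50) (27 * (2 + C)),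
      com_ev2 (by norm_num : (0 : ℝ) < 2 / 5) 24,
      Real.tendsto_log_atTop.eventually_ge_atTop (2 / η)] with X a b c d using ⟨a, b, c, d⟩
  obtain ⟨X3, hX3⟩ := eventually_atTop.1 hev
  refine ⟨max X1 (max X2 X3), hX1.trans (le_max_left _ _), ?_⟩
  intro X c t x hX hcr ht hx1 hx2
  have hXX1 : X1 ≤ X := (le_max_left _ _).trans hX
  have hXX2 : X2 ≤ X := (le_max_left _ _).trans ((le_max_right _ _).trans hX)
  have hXX3 : X3 ≤ X := (le_max_right _ _).trans ((le_max_right _ _).trans hX)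
  have hX2' : 2 ≤ X := hX1.trans hXX1
  obtain ⟨g, U, hU, hd, hg, hg2⟩ := H2 X c t hXX2 hcr ht
  obtain ⟨d1, d2, d3, d4⟩ := hX3 X hXX3
  have hRsub : Rz c η X t ⊆ ZF c (2 * η) X := Finset.filter_subset _ _
  refine ps1_x hCsh hPid hPkr hC0 hC hη hη2 hX2' d1 d2 d3 d4 c t x g U hU hd hg (Rz c η X t) hg2
    ?_ ?_ hx1 hx2
  · refine (Finset.sum_le_sum_of_subset_of_nonneg hRsub fun i _ _ => Nat.cast_nonneg _).trans ?_
    refine H1 X c hXX1 (hcr.trans ?_)
    exact Real.rpow_le_rpow_of_exponent_le (by linarith) (by linarith)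
  · intro ρ hρ
    have h1 := (hFin.2.1 c (2 * η) X ρ (by linarith)).1 (hRsub hρ)
    have h2 : 1 / 2 ≤ ρ.re := by linarith [h1.2.1]
    exact ⟨h2, (hFin.2.2 c ρ h1.1 h2).1.le⟩

end Pool.Agent.Helper86.MV
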