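import Pool.Agent.Helper23.MV.StP

/-!
# Project MV: Perron's formula with a shift of the contour and poles (common part of MGD and PS1)
-/

set_option autoImplicit false

namespace Pool.Agent.Helper86.MV

open Pool.Agent.Helper23.MV
open Finset ArithmeticFunction MeasureTheory Set Filter
open Pool.Agent.Helper2.MR (ch)

/-- `ch τ n * n^{-z} = n^{-(z+iτ)}` -/
theorem com_ch (τ : ℝ) (z : ℂ) {n : ℕ} (hn : n ≠ 0) :
    ch τ n * (n : ℂ) ^ (-z) = (n : ℂ) ^ (-(z + τ * Complex.I)) := by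
  have hn' : (n : ℂ) ≠ 0 := Nat.cast_ne_zero.2 hn
  rw [show -(z + τ * Complex.I) = -(τ * Complex.I) + -z by ring, Complex.cpow_add _ _ hn']
  congr 1
  rw [Complex.cpow_def_of_ne_zero hn', ← Complex.natCast_log, ch]
  congr 1
  push_cast
  ring

/-- the Dirichlet series of `a(n) n^{-iτ}` -/
theorem com_series (a : ℕ → ℂ) (τ : ℝ) (s : ℂ) (hs : 0 < s.re) :
    ∑' n : ℕ, (a n * ch τ n) * (n : ℂ) ^ (-s) = LSeries a (s + τ * Complex.I) := by
  unfold LSeries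
  congr 1
  funext n
  rcases Nat.eq_zero_or_pos n with hn | hn
  · subst hn
    have h0 : -s ≠ 0 := by
      intro h
      have := congrArg Complex.re h
      simp at this
      linarith
    rw [LSeries.term_zero, Nat.cast_zero, Complex.zero_cpow h0, mul_zero]
  · have hn' := hn.ne'
    rw [LSeries.term_of_ne_zero hn', mul_assoc, com_ch τ s hn', div_eq_mul_inv, Complex.cpow_neg]

theorem com_sq (σ y : ℝ) : ‖((σ : ℂ) + y * Complex.I) ^ 2‖ = σ ^ 2 + y ^ 2 := by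
  rw [norm_pow, ← Complex.normSq_eq_norm_sq, Complex.normSq_apply]
  simp
  ring

theorem com_ne {σ : ℝ} (hσ : 0 < σ) (y : ℝ) : (σ : ℂ) + y * Complex.I ≠ 0 := by
  intro h
  have := congrArg Complex.re h
  simp at this
  linarith

theorem com_cpow {x : ℝ} (hx : 1 ≤ x) (σ y : ℝ) :
    ‖(x : ℂ) ^ ((σ : ℂ) + y * Complex.I)‖ = x ^ σ := by
  rw [Complex.norm_cpow_eq_rpow_re_of_pos (by linarith)]
  simp

/-- the integrand -/
theorem com_int {G : ℝ → ℂ} {σ x M : ℝ} (hG : Continuous G) (hσ : 1 < σ) (hx : 1 ≤ x)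
    (hM : ∀ y, ‖G y‖ ≤ M) :
    Integrable (fun y : ℝ => G y * (x : ℂ) ^ (σ + y * Complex.I : ℂ) /
      (σ + y * Complex.I : ℂ) ^ 2) ∧
    ∀ y : ℝ, ‖G y * (x : ℂ) ^ (σ + y * Complex.I : ℂ) / (σ + y * Complex.I : ℂ) ^ 2‖ ≤
      M * x ^ σ * (σ ^ 2 + y ^ 2)⁻¹ := by
  have hx0 : (x : ℂ) ≠ 0 := by
    rw [Ne, Complex.ofReal_eq_zero]
    linarith
  have hb : ∀ y : ℝ, ‖G y * (x : ℂ) ^ (σ + y * Complex.I : ℂ) / (σ + y * Complex.I : ℂ) ^ 2‖ ≤
      M * x ^ σ * (σ ^ 2 + y ^ 2)⁻¹ := by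
    intro y
    rw [norm_div, norm_mul, com_cpow hx, com_sq, div_eq_mul_inv]
    have := hM y
    gcongr
  have hcont : Continuous (fun y : ℝ => G y * (x : ℂ) ^ (σ + y * Complex.I : ℂ) /
      (σ + y * Complex.I : ℂ) ^ 2) := by
    refine Continuous.div ?_ (by fun_prop) fun y => pow_ne_zero 2 (com_ne (by linarith) y)
    refine hG.mul ?_
    exact Continuous.const_cpow (by fun_prop) (Or.inl hx0)
  refine ⟨?_, hb⟩
  refine Integrable.mono' (integrable_inv_one_add_sq.const_mul (M * x ^ σ))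
    hcont.aestronglyMeasurable (Eventually.of_forall fun y => ?_)
  refine (hb y).trans ?_
  have hM0 : 0 ≤ M := (norm_nonneg _).trans (hM 0)
  have h1 : (0 : ℝ) ≤ M * x ^ σ := by positivity
  refine mul_le_mul_of_nonneg_left ?_ h1
  refine inv_anti₀ (by positivity) ?_
  nlinarith

/-- the tails of the Perron integral -/
theorem com_tail {G : ℝ → ℂ} {σ x M Y : ℝ} (hG : Continuous G) (hσ : 1 < σ) (hx : 1 ≤ x)
    (hM : ∀ y, ‖G y‖ ≤ M) (hY : 0 < Y) :
    ‖∫ y : ℝ, G y * (x : ℂ) ^ (σ + y * Complex.I : ℂ) / (σ + y * Complex.I : ℂ) ^ 2‖ ≤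
      ‖∫ y in (-Y)..Y, G y * (x : ℂ) ^ (σ + y * Complex.I : ℂ) / (σ + y * Complex.I : ℂ) ^ 2‖ +
        2 * M * x ^ σ / Y := by
  obtain ⟨hI, hb⟩ := com_int hG hσ hx hM
  set I : ℝ → ℂ := fun y : ℝ => G y * (x : ℂ) ^ (σ + y * Complex.I : ℂ) /
      (σ + y * Complex.I : ℂ) ^ 2 with hIdef
  have hM0 : 0 ≤ M := (norm_nonneg _).trans (hM 0)
  have h1 : (0 : ℝ) ≤ M * x ^ σ := by positivity
  have hb2 : ∀ y : ℝ, Y < |y| → ‖I y‖ ≤ M * x ^ σ * |y| ^ (-2 : ℝ) := by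
    intro y hy
    refine (hb y).trans (mul_le_mul_of_nonneg_left ?_ h1)
    have hy0 : 0 < |y| := hY.trans hy
    rw [Real.rpow_neg hy0.le, Real.rpow_two, sq_abs]
    have : 0 < y ^ 2 := by rw [← sq_abs]; positivity
    exact inv_anti₀ this (by nlinarith)
  have hint : IntegrableOn (fun y : ℝ => M * x ^ σ * y ^ (-2 : ℝ)) (Ioi Y) :=
    (integrableOn_Ioi_rpow_of_lt (by norm_num) hY).const_mul _
  have hval : ∫ y in Ioi Y, M * x ^ σ * y ^ (-2 : ℝ) = M * x ^ σ / Y := by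
    rw [integral_const_mul, integral_Ioi_rpow_of_lt (by norm_num) hY]
    norm_num
    rw [Real.rpow_neg_one]
    ring
  have hR : ‖∫ y in Ioi Y, I y‖ ≤ M * x ^ σ / Y := by
    rw [← hval]
    refine norm_integral_le_of_norm_le hint ?_
    refine (ae_restrict_iff' measurableSet_Ioi).2 (Eventually.of_forall fun y hy => ?_)
    have hy' : Y < y := hy
    have h := hb2 y (by rw [abs_of_pos (hY.trans hy')]; exact hy')
    rwa [abs_of_pos (hY.trans hy')] at h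
  have hL : ‖∫ y in Iic (-Y), I y‖ ≤ M * x ^ σ / Y := by
    have e : ∫ y in Iic (-Y), I y = ∫ y in Ioi Y, I (-y) := by
      rw [integral_comp_neg_Ioi]
    rw [e, ← hval]
    refine norm_integral_le_of_norm_le hint ?_
    refine (ae_restrict_iff' measurableSet_Ioi).2 (Eventually.of_forall fun y hy => ?_)
    have hy' : Y < y := hy
    have h := hb2 (-y) (by rw [abs_neg, abs_of_pos (hY.trans hy')]; exact hy')
    rwa [abs_neg, abs_of_pos (hY.trans hy')] at h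
  have hs1 : ∫ y, I y = (∫ y in Iic Y, I y) + ∫ y in Ioi Y, I y := by
    rw [← compl_Iic, integral_add_compl measurableSet_Iic hI]
  have hs2 : ∫ y in Iic Y, I y = (∫ y in (-Y)..Y, I y) + ∫ y in Iic (-Y), I y := by
    have := intervalIntegral.integral_Iic_sub_Iic (hI.integrableOn (s := Iic (-Y)))
      (hI.integrableOn (s := Iic Y))
    rw [← this]
    ring
  rw [hs1, hs2]
  calc ‖(∫ y in (-Y)..Y, I y) + (∫ y in Iic (-Y), I y) + ∫ y in Ioi Y, I y‖
      ≤ ‖∫ y in (-Y)..Y, I y‖ + ‖∫ y in Iic (-Y), I y‖ + ‖∫ y in Ioi Y, I y‖ := norm_add₃_le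
    _ ≤ ‖∫ y in (-Y)..Y, I y‖ + M * x ^ σ / Y + M * x ^ σ / Y := by gcongr
    _ = _ := by ring

theorem com_cont {f : ℕ → ℂ} {σ : ℝ} (hf0 : f 0 = 0)
    (hsum : Summable fun n : ℕ => ‖f n‖ * (n : ℝ) ^ (-σ)) :
    Continuous fun y : ℝ => ∑' n : ℕ, f n * (n : ℂ) ^ (-(σ + y * Complex.I : ℂ)) := by
  refine continuous_tsum (u := fun n : ℕ => ‖f n‖ * (n : ℝ) ^ (-σ)) ?_ hsum ?_
  · intro n
    rcases Nat.eq_zero_or_pos n with hn | hn
    · subst hn
      simp only [hf0, zero_mul]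
      exact continuous_const
    · refine continuous_const.mul ?_
      exact Continuous.const_cpow (by fun_prop) (Or.inl (Nat.cast_ne_zero.2 hn.ne'))
  · intro n y
    rcases Nat.eq_zero_or_pos n with hn | hn
    · subst hn
      simp [hf0]
    · rw [norm_mul, Complex.norm_natCast_cpow_of_pos hn]
      simp

/-- Perron's formula, shift of the contour, poles -/
theorem com_gen (hCsh : StCsh) (hPid : StPid) {ι : Type*} (P : Finset ι)
    (hPkr : ∀ i ∈ P, StPkr)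
    (m a : ι → ℂ) (f : ℕ → ℂ) (h : ℂ → ℂ) (U : Set ℂ) (σ₀ σ Y B M x : ℝ)
    (h1 : 1 / 2 ≤ σ₀) (h2 : σ₀ ≤ 1) (h3 : 1 < σ) (h4 : σ ≤ 3) (hY : 1 ≤ Y) (hx : 1 ≤ x)
    (hB : 0 ≤ B) (hU : IsOpen U) (hd : DifferentiableOn ℂ h U)
    (hR : ∀ z : ℂ, σ₀ ≤ z.re → z.re ≤ σ → |z.im| ≤ Y → z ∈ U ∧ ‖h z‖ ≤ B)
    (hf0 : f 0 = 0) (hsum : Summable fun n : ℕ => ‖f n‖ * (n : ℝ) ^ (-σ))
    (hF : ∀ y : ℝ, ∑' n : ℕ, f n * (n : ℂ) ^ (-(σ + y * Complex.I : ℂ)) =
      h (σ + y * Complex.I) + ∑ i ∈ P, m i / ((σ + y * Complex.I : ℂ) - a i))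
    (hM : ∀ y : ℝ, ‖h (σ + y * Complex.I)‖ ≤ M)
    (ha : ∀ i ∈ P, 1 / 2 ≤ (a i).re ∧ (a i).re ≤ 1) :
    ‖∑ n ∈ Finset.Ioc 0 ⌊x⌋₊, f n * ((Real.log (x / n) : ℝ) : ℂ) -
      ∑ i ∈ P, m i * (x : ℂ) ^ (a i) / (a i) ^ 2‖ ≤
    2 * B * (x ^ σ₀ + x ^ σ / Y ^ 2) + M * x ^ σ / Y +
      (∑ i ∈ P, ‖m i‖) * (2 * Real.log x + 4) := by
  have hx0 : 0 < x := by linarith
  have hcont := com_cont hf0 hsum
  have hsub : ∀ i ∈ P, ∀ y : ℝ, (σ + y * Complex.I : ℂ) - a i ≠ 0 := by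
    intro i hi y hy
    have := congrArg Complex.re hy
    simp at this
    have := (ha i hi).2
    linarith
  have hsubn : ∀ i ∈ P, ∀ y : ℝ, ‖m i / ((σ + y * Complex.I : ℂ) - a i)‖ ≤
      ‖m i‖ / (σ - 1) := by
    intro i hi y
    rw [norm_div]
    refine div_le_div_of_nonneg_left (norm_nonneg _) (by linarith) ?_
    refine le_trans ?_ (Complex.abs_re_le_norm _)
    simp only [Complex.sub_re, Complex.add_re, Complex.ofReal_re, Complex.mul_re, Complex.I_re,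
      Complex.ofReal_im, Complex.I_im]
    refine le_trans ?_ (le_abs_self _)
    have := (ha i hi).2
    linarith
  have hci : ∀ i ∈ P, Continuous fun y : ℝ => m i / ((σ + y * Complex.I : ℂ) - a i) := by
    intro i hi
    exact Continuous.div continuous_const (by fun_prop) (hsub i hi)
  have hch : Continuous fun y : ℝ => h (σ + y * Complex.I) := by
    have e : (fun y : ℝ => h (σ + y * Complex.I)) = fun y : ℝ =>
        (∑' n : ℕ, f n * (n : ℂ) ^ (-(σ + y * Complex.I : ℂ))) -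
          ∑ i ∈ P, m i / ((σ + y * Complex.I : ℂ) - a i) := by
      funext y
      rw [hF y]
      ring
    rw [e]
    exact hcont.sub (continuous_finsetSum _ hci)
  have hpid := hPid f σ x h3 hx hf0 hsum
  have hInt : ∀ y : ℝ, (∑' n : ℕ, f n * (n : ℂ) ^ (-(σ + y * Complex.I : ℂ))) *
      (x : ℂ) ^ (σ + y * Complex.I : ℂ) / (σ + y * Complex.I : ℂ) ^ 2 =
      h (σ + y * Complex.I) * (x : ℂ) ^ (σ + y * Complex.I : ℂ) / (σ + y * Complex.I : ℂ) ^ 2 +
      ∑ i ∈ P, m i / ((σ + y * Complex.I : ℂ) - a i) *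
        (x : ℂ) ^ (σ + y * Complex.I : ℂ) / (σ + y * Complex.I : ℂ) ^ 2 := by
    intro y
    rw [hF y, add_mul, add_div, Finset.sum_mul, Finset.sum_div]
  have hpole : ∀ i ∈ P, (1 / (2 * Real.pi) : ℂ) * ∫ y : ℝ, m i / ((σ + y * Complex.I : ℂ) - a i) *
        (x : ℂ) ^ (σ + y * Complex.I : ℂ) / (σ + y * Complex.I : ℂ) ^ 2 =
      m i * ((x : ℂ) ^ (a i) / (a i) ^ 2 - ((Real.log x : ℝ) : ℂ) / a i - 1 / (a i) ^ 2) := by
    intro i hi
    rw [← hPkr i hi (a i) σ x (ha i hi).1 (ha i hi).2 h3 hx, mul_left_comm]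
    congr 1
    rw [← integral_const_mul]
    congr 1
    funext y
    rw [mul_comm ((σ + y * Complex.I : ℂ) ^ 2), ← div_div]
    ring
  have hIi : ∀ i ∈ P, Integrable fun y : ℝ => m i / ((σ + y * Complex.I : ℂ) - a i) *
        (x : ℂ) ^ (σ + y * Complex.I : ℂ) / (σ + y * Complex.I : ℂ) ^ 2 :=
    fun i hi => (com_int (hci i hi) h3 hx (hsubn i hi)).1
  have hIh := (com_int hch h3 hx hM).1
  have key : (∑ n ∈ Finset.Ioc 0 ⌊x⌋₊, f n * ((Real.log (x / n) : ℝ) : ℂ)) -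
      ∑ i ∈ P, m i * (x : ℂ) ^ (a i) / (a i) ^ 2 =
      (1 / (2 * Real.pi) : ℂ) * (∫ y : ℝ, h (σ + y * Complex.I) *
        (x : ℂ) ^ (σ + y * Complex.I : ℂ) / (σ + y * Complex.I : ℂ) ^ 2) -
      ∑ i ∈ P, m i * (((Real.log x : ℝ) : ℂ) / a i + 1 / (a i) ^ 2) := by
    rw [hpid]
    simp_rw [hInt]
    rw [integral_add hIh (integrable_finsetSum _ hIi), integral_finsetSum _ hIi, mul_add,
      Finset.mul_sum, Finset.sum_congr rfl hpole, add_sub_assoc, ← Finset.sum_sub_distrib]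
    rw [sub_eq_add_neg, ← Finset.sum_neg_distrib]
    congr 1
    refine Finset.sum_congr rfl fun i _ => ?_
    ring
  rw [key]
  have hpi : ‖(1 / (2 * Real.pi) : ℂ)‖ ≤ 1 / 6 := by
    rw [norm_div, norm_one, norm_mul, Complex.norm_real, Real.norm_of_nonneg Real.pi_pos.le]
    have := Real.pi_gt_three
    simp only [Complex.norm_ofNat]
    exact one_div_le_one_div_of_le (by norm_num) (by linarith)
  have hcsh := hCsh h U σ₀ σ Y B x h1 (h2.trans h3.le) h4 hY hx hB hU hd hR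
  have htail := com_tail hch h3 hx hM (by linarith : (0 : ℝ) < Y)
  have hM0 : 0 ≤ M := (norm_nonneg _).trans (hM 0)
  have hxσ : 0 ≤ x ^ σ := by positivity
  have hxσ0 : 0 ≤ x ^ σ₀ := by positivity
  have hlog : 0 ≤ Real.log x := Real.log_nonneg hx
  refine (norm_sub_le _ _).trans (add_le_add ?_ ?_)
  · rw [norm_mul]
    have hnn : 0 ≤ M * x ^ σ / Y := by positivity
    have hnn2 : 0 ≤ B * (x ^ σ₀ + x ^ σ / Y ^ 2) := by positivity
    calc ‖(1 / (2 * Real.pi) : ℂ)‖ * ‖∫ y : ℝ, h (σ + y * Complex.I) *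
        (x : ℂ) ^ (σ + y * Complex.I : ℂ) / (σ + y * Complex.I : ℂ) ^ 2‖
        ≤ 1 / 6 * (10 * B * (x ^ σ₀ + x ^ σ / Y ^ 2) + 2 * M * x ^ σ / Y) := by
          refine mul_le_mul hpi (htail.trans (add_le_add hcsh le_rfl)) (norm_nonneg _) (by norm_num)
      _ ≤ _ := by
          have e1 : 2 * M * x ^ σ / Y = 2 * (M * x ^ σ / Y) := by ring
          rw [e1]
          nlinarith
  · rw [Finset.sum_mul]
    refine (norm_sum_le _ _).trans (Finset.sum_le_sum fun i hi => ?_)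
    rw [norm_mul]
    refine mul_le_mul_of_nonneg_left ?_ (norm_nonneg _)
    have hai : 1 / 2 ≤ ‖a i‖ := by
      refine (ha i hi).1.trans ((le_abs_self _).trans (Complex.abs_re_le_norm _))
    have hai0 : 0 < ‖a i‖ := by linarith
    refine (norm_add_le _ _).trans (add_le_add ?_ ?_)
    · rw [norm_div, Complex.norm_real, Real.norm_of_nonneg hlog, div_le_iff₀ hai0]
      nlinarith
    · rw [norm_div, norm_one, norm_pow, div_le_iff₀ (by positivity)]
      nlinarith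

end Pool.Agent.Helper86.MV
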